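import Pool.Agent.W516.MTZ.Stm

/-!
# MTZ-WT: subgroups stable under the weight action
-/

set_option autoImplicit false

namespace Pool.Agent.W160.MTZ

open Pool.Agent.W516.MTZ

theorem prod_mem {X : Type} (d : X → ℕ) (V : AddSubgroup (X → ℂ))
    (hV : ∀ μ : ℂ, μ ≠ 0 → ∀ v ∈ V, (fun x => μ ^ d x * v x) ∈ V) (v : X → ℂ) (hv : v ∈ V)
    (s : Finset ℕ) : (fun x => (∏ m ∈ s, ((2 : ℂ) ^ d x - 2 ^ m)) * v x) ∈ V := by
  classical
  induction s using Finset.induction_on with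
  | empty =>
    simp only [Finset.prod_empty, one_mul]
    exact hv
  | insert m s hm ih =>
    have h1 := hV 2 two_ne_zero _ ih
    have h2 : (2 ^ m : ℕ) • (fun x => (∏ m ∈ s, ((2 : ℂ) ^ d x - 2 ^ m)) * v x) ∈ V :=
      V.nsmul_mem ih _
    have h3 : (fun x => (∏ m ∈ insert m s, ((2 : ℂ) ^ d x - 2 ^ m)) * v x) =
        (fun x => (2 : ℂ) ^ d x * ((∏ m ∈ s, ((2 : ℂ) ^ d x - 2 ^ m)) * v x)) -
          (2 ^ m : ℕ) • (fun x => (∏ m ∈ s, ((2 : ℂ) ^ d x - 2 ^ m)) * v x) := by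
      funext x
      rw [Finset.prod_insert hm, Pi.sub_apply, Pi.smul_apply, nsmul_eq_mul]
      push_cast
      ring
    rw [h3]
    exact V.sub_mem h1 h2

theorem T_WT : StWt := by
  intro X _ d hd V hV v hv n c
  by_cases hc : c = 0
  · have h0 : (fun x => if d x = n then c * v x else 0) = (0 : X → ℂ) := by
      funext x
      rw [hc, zero_mul, ite_self, Pi.zero_apply]
    rw [h0]
    exact V.zero_mem
  by_cases hn : n = 0
  · have h0 : (fun x => if d x = n then c * v x else 0) = (0 : X → ℂ) := by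
      funext x
      have := hd x
      rw [if_neg (by omega), Pi.zero_apply]
    rw [h0]
    exact V.zero_mem
  obtain ⟨s, hs⟩ : ∃ s : Finset ℕ, s = (Finset.univ.image d).erase n := ⟨_, rfl⟩
  obtain ⟨D, hD⟩ : ∃ D : ℂ, D = ∏ m ∈ s, ((2 : ℂ) ^ n - 2 ^ m) := ⟨_, rfl⟩
  have hD0 : D ≠ 0 := by
    rw [hD, Finset.prod_ne_zero_iff]
    intro m hm h
    rw [hs, Finset.mem_erase] at hm
    have h2 : ((2 ^ n : ℕ) : ℂ) = ((2 ^ m : ℕ) : ℂ) := by
      push_cast
      exact sub_eq_zero.mp h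
    exact hm.1 (Nat.pow_right_injective le_rfl (Nat.cast_injective h2)).symm
  obtain ⟨μ, hμ⟩ := IsAlgClosed.exists_pow_nat_eq (c / D) (Nat.pos_of_ne_zero hn)
  have hμ0 : μ ≠ 0 := by
    rintro rfl
    rw [zero_pow hn] at hμ
    exact (div_ne_zero hc hD0) hμ.symm
  have h1 := hV μ hμ0 _ (prod_mem d V hV v hv s)
  have h2 : (fun x => if d x = n then c * v x else 0) =
      fun x => μ ^ d x * ((∏ m ∈ s, ((2 : ℂ) ^ d x - 2 ^ m)) * v x) := by
    funext x
    by_cases hx : d x = n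
    · rw [if_pos hx, hx, ← hD, hμ, ← mul_assoc, div_mul_cancel₀ _ hD0]
    · rw [if_neg hx, Finset.prod_eq_zero (i := d x), zero_mul, mul_zero]
      · rw [hs, Finset.mem_erase]
        exact ⟨hx, Finset.mem_image_of_mem d (Finset.mem_univ x)⟩
      · exact sub_self _
  rw [h2]
  exact h1

end Pool.Agent.W160.MTZ
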